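import Pool.Agent.W795.DD.Stm
import Pool.Agent.W378.DfInit

/-!
# DD-APPR: smooth fields are approximated by their partial sums
-/

set_option autoImplicit false

open MeasureTheory Set Filter Topology
open scoped ContDiff ENNReal

namespace Pool.Agent.W351.DD

open H459R3.NS (V K3 Per pd fr ee cube)
open Pool.Agent.W785.DF (E3 Fr frv)
open Pool.Agent.W795.DD

theorem summable_frv {u0 : V → V} (hu : ContDiff ℝ ∞ u0) (hp : Per u0) :
    Summable fun k => ‖frv u0 k‖ := by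
  have hi := Pool.Agent.W378.DFI.sp_comp hu hp
  have s1 : ∀ i, Summable fun k => ‖fr (fun x => u0 x i) k‖ := fun i =>
    (H459R3.NS.rap_fr (hi i)).summable.norm
  have s2 : Summable fun k => ∑ i, ‖fr (fun x => u0 x i) k‖ := summable_sum fun i _ => s1 i
  refine Summable.of_nonneg_of_le (fun k => norm_nonneg _) (fun k => ?_) s2
  have h1 := Pool.Agent.W378.DFI.norm_frv_sq u0 k
  have h2 : ∑ i, ‖fr (fun x => u0 x i) k‖ ^ 2 ≤ (∑ i, ‖fr (fun x => u0 x i) k‖) ^ 2 :=
    by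
      simp only [Fin.sum_univ_three]
      have e0 := norm_nonneg (fr (fun x => u0 x 0) k)
      have e1 := norm_nonneg (fr (fun x => u0 x 1) k)
      have e2 := norm_nonneg (fr (fun x => u0 x 2) k)
      nlinarith [mul_nonneg e0 e1, mul_nonneg e0 e2, mul_nonneg e1 e2]
  rw [← h1] at h2
  exact (abs_le_of_sq_le_sq' h2 (Finset.sum_nonneg fun i _ => norm_nonneg _)).2

theorem tsum_two : ∑' j : ℕ, (2 : ℝ≥0∞)⁻¹ ^ j = 2 := by
  rw [ENNReal.tsum_geometric, ENNReal.one_sub_inv_two, inv_inv]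

theorem sq_zero : Pool.Agent.W785.DF.sq (0 : K3) = 0 := by
  simp [Pool.Agent.W785.DF.sq]

theorem proof : Pool.Agent.W795.DD.S_appr := by
  classical
  intro q u0 hq hu hp δ hδ
  have hs := summable_frv hu hp
  have hne : ∑' k : K3, ‖frv u0 k‖ₑ ≠ ⊤ := by
    have h1 : ∀ k : K3, ‖frv u0 k‖ₑ = ENNReal.ofReal ‖frv u0 k‖ := fun k =>
      (ofReal_norm _).symm
    simp only [h1]
    exact hs.tsum_ofReal_ne_top
  have hlim := ENNReal.tendsto_tsum_compl_atTop_zero hne
  set η : ℝ≥0∞ := min 1 (ENNReal.ofReal δ) / 2 with hη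
  have hηpos : 0 < η := by
    rw [hη]
    refine ENNReal.div_pos ?_ (by simp)
    exact (lt_min one_pos (ENNReal.ofReal_pos.2 hδ)).ne'
  obtain ⟨F0, hF0⟩ := (hlim.eventually (gt_mem_nhds hηpos)).exists
  set F : Finset K3 := (F0 ∪ F0.image (fun k => -k)).erase 0 with hF
  refine ⟨F, ⟨by simp [hF], ?_⟩, ?_⟩
  · intro k hk
    rw [hF, Finset.mem_erase, Finset.mem_union, Finset.mem_image] at hk ⊢
    refine ⟨by simpa using hk.1, ?_⟩
    rcases hk.2 with h | ⟨l, hl, rfl⟩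
    · right
      exact ⟨k, h, rfl⟩
    · left
      simpa using hl
  set Y : ℝ≥0∞ := ∑' b : {x // x ∉ F0}, ‖frv u0 (b : K3)‖ₑ with hY
  have hY2 : Y = ∑' k : K3, if k ∈ F0 then 0 else ‖frv u0 k‖ₑ := by
    have h1 := tsum_subtype ({x : K3 | x ∉ F0}) (fun k => ‖frv u0 k‖ₑ)
    have h2 : Y = ∑' x : ({x : K3 | x ∉ F0} : Set K3), ‖frv u0 (x : K3)‖ₑ := rfl
    rw [h2, h1]
    refine tsum_congr fun k => ?_
    rw [Set.indicator_apply]
    by_cases hk : k ∈ F0
    · simp [hk]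
    · simp [hk]
  set a : K3 → E3 := fun k => if k ∈ F then 0 else frv u0 k with ha
  have hshell : ∀ j : ℕ, (∑' k : K3, if k ∈ shell j then ‖a k‖ₑ else 0) ≤ Y := by
    intro j
    rw [hY2]
    refine ENNReal.tsum_le_tsum fun k => ?_
    by_cases hk : k ∈ shell j
    · rw [if_pos hk]
      have hk0 : k ≠ 0 := by
        rintro rfl
        have h1 := hk.1
        rw [sq_zero] at h1
        have h2 : (0 : ℝ) < 4 ^ j := by positivity
        linarith
      by_cases hkF : k ∈ F0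
      · have : k ∈ F := by
          rw [hF, Finset.mem_erase, Finset.mem_union]
          exact ⟨hk0, Or.inl hkF⟩
        simp [ha, this]
      · rw [if_neg hkF]
        simp only [ha]
        split_ifs
        · simp
        · exact le_rfl
    · rw [if_neg hk]
      exact bot_le
  have hYη : 2 * Y ≤ min 1 (ENNReal.ofReal δ) := by
    calc 2 * Y ≤ 2 * η := by gcongr
      _ = min 1 (ENNReal.ofReal δ) := by
        rw [hη]
        exact ENNReal.mul_div_cancel (by simp) (by simp)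
  have hx : ∀ j : ℕ, (2 : ℝ≥0∞)⁻¹ ^ j * (∑' k : K3, if k ∈ shell j then ‖a k‖ₑ else 0) ≤
      (2 : ℝ≥0∞)⁻¹ ^ j * Y := fun j => by gcongr; exact hshell j
  have hx1 : ∀ j : ℕ, (2 : ℝ≥0∞)⁻¹ ^ j * (∑' k : K3, if k ∈ shell j then ‖a k‖ₑ else 0) ≤ 1 := by
    intro j
    refine (hx j).trans ?_
    have h1 : (2 : ℝ≥0∞)⁻¹ ^ j ≤ 1 := by
      refine pow_le_one₀ bot_le ?_
      simp
    calc (2 : ℝ≥0∞)⁻¹ ^ j * Y ≤ 1 * Y := by gcongr
      _ = Y := one_mul _
      _ ≤ 2 * Y := by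
        rw [two_mul]
        exact le_self_add
      _ ≤ 1 := hYη.trans (min_le_left _ _)
  calc crq q a ≤ ∑' j : ℕ, (2 : ℝ≥0∞)⁻¹ ^ j * Y := by
        unfold crq
        refine ENNReal.tsum_le_tsum fun j => ?_
        refine le_trans ?_ (hx j)
        have := ENNReal.rpow_le_self_of_le_one (hx1 j) (by linarith : (1 : ℝ) ≤ q)
        convert this using 4
    _ = 2 * Y := by rw [ENNReal.tsum_mul_right, tsum_two]
    _ ≤ ENNReal.ofReal δ := hYη.trans (min_le_right _ _)

end Pool.Agent.W351.DD
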